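import Pool.Agent.Q169.AA.Loc

/-!
# MP_6db3ee_gt, Q1: asymptotically affine maps in the homotopy class of a homeomorphism

Q1 asks whether a smooth 4-manifold `X` homeomorphic to `Y = S¹ × S³` (or to the twisted product) is
diffeomorphic to it.  The theorem says that this is so if the homotopy class of some homeomorphism
`h : X → Y` contains a continuous map `f`, not assumed injective, which at every point is a local
diffeomorphism or *asymptotically affine*: in smooth coordinates there is `c > 0` such that for every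
`ε > 0`, on all sufficiently small balls (radius `s`, centers near the point), `f` differs by at
most `ε m s` from an affine map whose linear part `L` satisfies `c m |v| ≤ |L v| ≤ m |v|`; the scale
`m > 0` and `L` depend on the ball in an arbitrary way.  Such a map may be nowhere differentiable, it
need not be Lipschitz, and the linear parts may rotate forever.  The condition does not depend on
the coordinates.

Then `f` is a homeomorphism, and every neighbourhood of its graph contains the graph of a
diffeomorphism `X → Y`.  The condition on the homotopy class cannot be omitted: `S¹ × S³` has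
self-coverings of every degree, which are local diffeomorphisms.

The theorem is proved for closed manifolds of all dimensions.
-/

set_option autoImplicit false

open Set Filter Topology Metric Function
open scoped Manifold ContDiff

noncomputable section

namespace Pool.Agent.Results.MP_6db3ee_gt.AsymptoticallyAffineHomotopy

/-- `ℝ^n` -/
abbrev R (n : ℕ) : Type := EuclideanSpace ℝ (Fin n)

/-- on the ball of radius `s` around `p` the map `G` differs by at most `ε m s` from an affine map
with linear part `L`, where `c m ‖v‖ ≤ ‖L v‖ ≤ m ‖v‖` -/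
def NearlyAffine (n : ℕ) (G : R n → R n) (c ε : ℝ) (p : R n) (s : ℝ) : Prop :=
  ∃ (m : ℝ) (L : R n →L[ℝ] R n), 0 < m ∧ (∀ v, c * m * ‖v‖ ≤ ‖L v‖ ∧ ‖L v‖ ≤ m * ‖v‖) ∧
    ∀ q, ‖q - p‖ ≤ s → ‖G q - G p - L (q - p)‖ ≤ ε * m * s

/-- `G` is asymptotically affine at `0` -/
def AsympAffine (n : ℕ) (G : R n → R n) : Prop :=
  ∃ c : ℝ, 0 < c ∧ ∀ ε : ℝ, 0 < ε → ∃ r : ℝ, 0 < r ∧ ∀ p : R n, ‖p‖ ≤ r →
    ∀ s : ℝ, 0 < s → s ≤ r → NearlyAffine n G c ε p s

section defs

variable (n : ℕ) {X Y : Type} [TopologicalSpace X] [ChartedSpace (R n) X] [TopologicalSpace Y]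
  [ChartedSpace (R n) Y]

/-- `f` is a smooth local diffeomorphism at `x` -/
def LocDiff (f : X → Y) (x : X) : Prop := IsLocalDiffeomorphAt (𝓡 n) (𝓡 n) ∞ f x

/-- `f` is asymptotically affine at `x`, in some smooth coordinates around `x` (the parametrization
`A`) and around `f x` (the chart `B`) -/
def AsymptoticallyAffine (f : X → Y) (x : X) : Prop :=
  ∃ (A : R n → X) (B : Y → R n), A 0 = x ∧ LocDiff n A 0 ∧ LocDiff n B (f x) ∧
    AsympAffine n fun p => B (f (A p))

end defs

/-- A continuous map of closed manifolds which is homotopic to a homeomorphism and at every point a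
local diffeomorphism or asymptotically affine is a homeomorphism, and it is a limit of
diffeomorphisms. -/
theorem result (n : ℕ) (X Y : Type) [TopologicalSpace X] [T2Space X] [CompactSpace X]
    [ChartedSpace (R n) X] [IsManifold (𝓡 n) ∞ X] [TopologicalSpace Y] [T2Space Y]
    [ChartedSpace (R n) Y] [IsManifold (𝓡 n) ∞ Y] (h f : C(X, Y)) (hh : IsHomeomorph h)
    (hfh : ContinuousMap.Homotopic f h) (hf : ∀ x, LocDiff n f x ∨ AsymptoticallyAffine n f x) :
    IsHomeomorph f ∧ ∀ O : Set (X × Y), IsOpen O → (∀ x, (x, f x) ∈ O) →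
      ∃ Φ : Diffeomorph (𝓡 n) (𝓡 n) X Y ∞, ∀ x, (x, Φ x) ∈ O := by
  have hAA : ∀ x, Pool.Agent.Q169.AA.AAM n f x := by
    intro x
    rcases hf x with h | ⟨A, B, hA0, hA, hB, c, hc, h⟩
    · exact Pool.Agent.Q169.AA.AAM_of_LD h
    · refine Pool.Agent.Q169.AA.AAM.of f.continuous.continuousAt hB ?_
      have h2 : Pool.Agent.Q169.AA.AAn n (fun p => B (f (A p))) 0 := by
        refine ⟨c, hc, fun ε hε => ?_⟩
        obtain ⟨r, hr, h3⟩ := h ε hε
        refine ⟨r, hr, fun p hp s hs hsr => h3 p ?_ s hs hsr⟩
        rwa [sub_zero] at hp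
      have h3 := Pool.Agent.Q169.AA.AAE.of (n := n) (F := fun w => B (f w)) hA h2
      rwa [hA0] at h3
  have hloc : IsLocalHomeomorph f := Pool.Agent.Q169.AA.isLocalHomeomorph_of_locInj n f
    f.continuous fun x => (hAA x).injOn
  have hb : Bijective f := Pool.Agent.Q131.CM.bij_of_homotopic_homeo (hh.homeomorph h) f h
    (fun x => rfl) hloc hfh
  have hfh' : IsHomeomorph f := ⟨f.continuous, hloc.isOpenMap, hb⟩
  refine ⟨hfh', fun O hO hfO => ?_⟩
  obtain ⟨f', h1, h2, h3, -⟩ := Pool.Agent.Q169.AA.aaInf n X Y (hfh'.homeomorph f) univ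
    isOpen_univ (fun x _ => ⟨mem_univ x, hAA x⟩) O hO hfO
  have hl : IsLocalDiffeomorph (𝓡 n) (𝓡 n) ∞ f' := h3
  exact ⟨hl.diffeomorphOfBijective h2, h1⟩

end Pool.Agent.Results.MP_6db3ee_gt.AsymptoticallyAffineHomotopy
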