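import Pool.Agent.Q130.CM.Lim

/-!
# MP_6db3ee_gt, Q1: cone monotone homeomorphisms

Q1 asks whether any two smooth 4-manifolds homeomorphic to `S¹ × S³`, or to the twisted product, are
diffeomorphic.  The theorem treats the case in which some homeomorphism `f : X → Y` between two such
smooth manifolds is, at every point, a local diffeomorphism or cone monotone: in smooth coordinates
around `x` and around `f x`, for every direction `v` the increments `f q - f p`, for `p`, `q` near
`x` with `q - p` nearly parallel to `v`, lie in a proper convex cone around some vector.  Such a map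
need not be smooth; the condition does not depend on the coordinates, and it holds, for
instance, if in some coordinates `⟨f q - f p, q - p⟩ ≥ δ ‖f q - f p‖ ‖q - p‖` near `x`, or if `f` is
nearly affine near `x`.  Then `f` is a limit of diffeomorphisms in the fine `C⁰` topology; in
particular `X` and `Y` are diffeomorphic.  The theorem is stated for all `σ`-compact smooth
manifolds `X`, `Y` (without boundary) of the same dimension.
-/

set_option autoImplicit false

open Set Filter Topology Metric Function
open scoped Manifold ContDiff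

noncomputable section

namespace Pool.Agent.Results.MP_6db3ee_gt.ConeMonotoneHomeomorphism

/-- `ℝ^n` -/
abbrev R (n : ℕ) : Type := EuclideanSpace ℝ (Fin n)

/-- the map `G` of Euclidean spaces is cone monotone at `0`: for every direction `v` there are
`r > 0` and a linear functional `ℓ` such that the increments of `G` between points of norm at most
`r`, in the directions near `v`, lie in the cone `r ‖w‖ < ℓ w` -/
def ConeMon (n : ℕ) (G : R n → R n) : Prop :=
  ∀ v : R n, v ≠ 0 → ∃ (r : ℝ) (ℓ : R n →L[ℝ] ℝ), 0 < r ∧
    ∀ p q : R n, ‖p‖ ≤ r → ‖q‖ ≤ r → ∀ t : ℝ, 0 < t → ‖q - p - t • v‖ ≤ r * t →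
      r * ‖G q - G p‖ < ℓ (G q - G p)

section defs

variable (n : ℕ) {X Y : Type} [TopologicalSpace X] [ChartedSpace (R n) X]
  [TopologicalSpace Y] [ChartedSpace (R n) Y]

/-- `f` is a smooth local diffeomorphism at `x` -/
def LocDiff (f : X → Y) (x : X) : Prop := IsLocalDiffeomorphAt (𝓡 n) (𝓡 n) ∞ f x

/-- `f` is cone monotone at `x`, in some smooth coordinates around `x` (the parametrization `A`) and
around `f x` (the chart `B`) -/
def ConeMonotone (f : X → Y) (x : X) : Prop :=
  ∃ (A : R n → X) (B : Y → R n), A 0 = x ∧ LocDiff n A 0 ∧ LocDiff n B (f x) ∧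
    ConeMon n fun p => B (f (A p))

end defs

/-- Smooth manifolds related by a homeomorphism which is at every point a local diffeomorphism or
cone monotone are diffeomorphic, by diffeomorphisms near the given homeomorphism. -/
theorem result (n : ℕ) (X Y : Type) [TopologicalSpace X] [T2Space X] [SigmaCompactSpace X]
    [ChartedSpace (R n) X] [IsManifold (𝓡 n) ∞ X] [TopologicalSpace Y]
    [ChartedSpace (R n) Y] [IsManifold (𝓡 n) ∞ Y] (f : X ≃ₜ Y)
    (hf : ∀ x, LocDiff n f x ∨ ConeMonotone n f x)
    (O : Set (X × Y)) (hO : IsOpen O) (hfO : ∀ x, (x, f x) ∈ O) :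
    ∃ Φ : Diffeomorph (𝓡 n) (𝓡 n) X Y ∞, ∀ x, (x, Φ x) ∈ O := by
  have : T2Space Y := f.t2Space
  obtain ⟨f', h1, h2, h3, -⟩ := Pool.Agent.Q130.CM.cmInf n X Y f univ isOpen_univ
    (fun x hx => ⟨mem_univ x, by
      rcases hf x with h | ⟨A, B, hA0, hA, hB, hc⟩
      · exact absurd h hx
      · exact ⟨B, hB, A, hA0, hA, hc⟩⟩) O hO hfO
  have hl : IsLocalDiffeomorph (𝓡 n) (𝓡 n) ∞ f' := h3
  exact ⟨hl.diffeomorphOfBijective h2, h1⟩

end Pool.Agent.Results.MP_6db3ee_gt.ConeMonotoneHomeomorphism
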