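import Pool.Agent.Q133.CO.Fin

/-!
# MP_6db3ee_gt, Q1: smooth homeomorphisms of corank at most one

Q1 asks whether every smooth 4-manifold `X` homeomorphic to `Y = S¹ × S³` or to the twisted product
is diffeomorphic to it.  The theorem treats the case in which some homeomorphism `X → Y` is a smooth
map whose derivative has rank at least three at every point (its inverse need not be
differentiable, and nothing is assumed about the set of critical points): then `X` and `Y` are
diffeomorphic, and the homeomorphism is a `C⁰`-limit of diffeomorphisms.  It is stated for all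
closed smooth manifolds `X`, `Y` of the same dimension `m + 1` and maps of rank at least `m`.

The method: near a critical point `m` linear coordinates of the map (in a chart of the target) are
smooth and independent, and the map is strictly monotone along the fibres of these; the remaining
coordinate is mollified in boxes, one after the other, with control of the `C¹` distance in all the
other boxes.
-/

set_option autoImplicit false

open Set Filter Topology Metric Function
open scoped Manifold ContDiff

noncomputable section

namespace Pool.Agent.Results.MP_6db3ee_gt.CorankOneHomeomorphism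

/-- the linear map `L` has rank at least `m`: composed with some linear map it is onto `ℝ^m` -/
def RankAtLeast (m : ℕ) {n : ℕ}
    (L : EuclideanSpace ℝ (Fin n) →L[ℝ] EuclideanSpace ℝ (Fin n)) : Prop :=
  ∃ P : EuclideanSpace ℝ (Fin n) →L[ℝ] EuclideanSpace ℝ (Fin m), Surjective (fun v => P (L v))

theorem RankAtLeast.le {m n : ℕ}
    {L : EuclideanSpace ℝ (Fin n) →L[ℝ] EuclideanSpace ℝ (Fin n)} (h : RankAtLeast m L) :
    m ≤ Module.finrank ℝ (LinearMap.range L.toLinearMap) := by
  obtain ⟨P, hP⟩ := h
  have h4 : Surjective (P.toLinearMap ∘ₗ (LinearMap.range L.toLinearMap).subtype) := by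
    intro w
    obtain ⟨v, hv⟩ := hP w
    exact ⟨⟨_, LinearMap.mem_range_self _ v⟩, hv⟩
  have h5 := LinearMap.finrank_le_finrank_of_surjective h4
  rwa [finrank_euclideanSpace, Fintype.card_fin] at h5

/-- A smooth bijection of corank at most one between closed smooth manifolds is a limit of
diffeomorphisms; in particular the manifolds are diffeomorphic. -/
theorem result (m : ℕ) (X Y : Type) [TopologicalSpace X] [T2Space X] [CompactSpace X]
    [ChartedSpace (EuclideanSpace ℝ (Fin (m + 1))) X] [IsManifold (𝓡 (m + 1)) ∞ X]
    [TopologicalSpace Y] [T2Space Y]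
    [ChartedSpace (EuclideanSpace ℝ (Fin (m + 1))) Y] [IsManifold (𝓡 (m + 1)) ∞ Y]
    (f : X → Y) (hf : ContMDiff (𝓡 (m + 1)) (𝓡 (m + 1)) ∞ f) (hb : Bijective f)
    (hr : ∀ x, RankAtLeast m (mfderiv (𝓡 (m + 1)) (𝓡 (m + 1)) f x))
    (O : Set (X × Y)) (hO : IsOpen O) (hfO : ∀ x, (x, f x) ∈ O) :
    ∃ Φ : Diffeomorph (𝓡 (m + 1)) (𝓡 (m + 1)) X Y ∞, ∀ x, (x, Φ x) ∈ O := by
  obtain ⟨f', h1, h2, h3⟩ := Pool.Agent.Q133.CO.co m X Y f hf hb (fun x => (hr x).le) O hO hfO
  have hl : IsLocalDiffeomorph (𝓡 (m + 1)) (𝓡 (m + 1)) ∞ f' := h3
  exact ⟨hl.diffeomorphOfBijective h2, h1⟩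

end Pool.Agent.Results.MP_6db3ee_gt.CorankOneHomeomorphism
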