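import Pool.Agent.Q131.FT.Pi

/-!
# MP_6db3ee_gt, Q1: countable-to-one maps without folds onto `S¹ × S³`

Q1 asks whether every smooth 4-manifold `X` homeomorphic to `Y = S¹ × S³` or to the twisted product
is diffeomorphic to it.  The theorem treats the manifolds `X` which admit a map `f : X → Y` of the
following class, surjective on the fundamental group (for example a homotopy equivalence, or a map
homotopic to a homeomorphism); the map is not assumed to be injective.

Let `X` be a closed connected smooth `n`-manifold, `Y` a connected smooth `n`-manifold, `n ≥ 2` (for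
Q1: `n = 4` and `Y = S¹ × S³` or the twisted product), and `f : X → Y` a continuous map such that at
every point `x`

* `f` is a local diffeomorphism, or
* near `x` the map `f` is smooth, its differential has rank at least `n - 1`, its Jacobian
  determinant is nonnegative in suitable smooth coordinates around `x` and `f x` (it does not change
  sign: there are no folds), and the fibres of `f` near `x` are countable (`NoFold`), or
* `f` is cone monotone at `x` (such a map may be nowhere differentiable).

If `f` is surjective on fundamental groups, it is a homeomorphism, and every neighbourhood of its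
graph contains the graph of a diffeomorphism `X → Y`, which can be chosen equal to `f` off a given
open set containing the points where `f` is not a local diffeomorphism.

The method: near a point of the second kind `n - 1` coordinates of `f` are coordinates of `X`, and
the remaining one is weakly monotone along their fibres, by the condition on the Jacobian; if it
were not strictly monotone, some fibre of `f` would contain an arc.  So `f` is locally injective,
hence a covering map, of one sheet if it is surjective on fundamental groups.  The homeomorphism is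
then changed into a diffeomorphism by mollifications in boxes (`Pool.Agent.Q130.CM.mixInf`).
-/

set_option autoImplicit false

open Set Filter Topology Metric Function
open scoped Manifold ContDiff

noncomputable section

namespace Pool.Agent.Results.MP_6db3ee_gt.PiOneSurjectiveMaps

/-- `ℝ^n` -/
abbrev R (n : ℕ) : Type := EuclideanSpace ℝ (Fin n)

/-- the map `G` of Euclidean spaces is cone monotone at `0`: for every direction `v` there are
`r > 0` and a linear functional `ℓ` such that the increments of `G` between points of norm at most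
`r`, in the directions near `v`, lie in the cone `r ‖w‖ < ℓ w` -/
def ConeMon (n : ℕ) (G : R n → R n) : Prop :=
  ∀ v : R n, v ≠ 0 → ∃ (r : ℝ) (ℓ : R n →L[ℝ] ℝ), 0 < r ∧
    ∀ p q : R n, ‖p‖ ≤ r → ‖q‖ ≤ r → ∀ t : ℝ, 0 < t → ‖q - p - t • v‖ ≤ r * t →
      r * ‖G q - G p‖ < ℓ (G q - G p)

/-- the linear map `L` of `ℝ^n` has rank at least `r`: composed with some linear map it is onto
`ℝ^r` -/
def RankAtLeast (r : ℕ) {n : ℕ} (L : R n →L[ℝ] R n) : Prop :=
  ∃ P : R n →L[ℝ] R r, Surjective (fun v => P (L v))

theorem RankAtLeast.le {r n : ℕ} {L : R n →L[ℝ] R n} (h : RankAtLeast r L) :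
    r ≤ Module.finrank ℝ (LinearMap.range L.toLinearMap) := by
  obtain ⟨P, hP⟩ := h
  have h4 : Surjective (P.toLinearMap ∘ₗ (LinearMap.range L.toLinearMap).subtype) := by
    intro w
    obtain ⟨v, hv⟩ := hP w
    exact ⟨⟨_, LinearMap.mem_range_self _ v⟩, hv⟩
  have h5 := LinearMap.finrank_le_finrank_of_surjective h4
  rwa [finrank_euclideanSpace, Fintype.card_fin] at h5

section defs

variable (n : ℕ) {X Y : Type} [TopologicalSpace X] [ChartedSpace (R n) X]
  [TopologicalSpace Y] [ChartedSpace (R n) Y]

/-- `f` is a smooth local diffeomorphism at `x` -/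
def LocDiff (f : X → Y) (x : X) : Prop := IsLocalDiffeomorphAt (𝓡 n) (𝓡 n) ∞ f x

/-- `f` is cone monotone at `x`, in some smooth coordinates around `x` (the parametrization `A`) and
around `f x` (the chart `B`) -/
def ConeMonotone (f : X → Y) (x : X) : Prop :=
  ∃ (A : R n → X) (B : Y → R n), A 0 = x ∧ LocDiff n A 0 ∧ LocDiff n B (f x) ∧
    ConeMon n fun p => B (f (A p))

/-- `f` is smooth near `x` and its differential has rank at least `r` at the points near `x` -/
def SmoothOfRank (r : ℕ) (f : X → Y) (x : X) : Prop :=
  ∀ᶠ y in 𝓝 x, ContMDiffAt (𝓡 n) (𝓡 n) ∞ f y ∧ RankAtLeast r (mfderiv (𝓡 n) (𝓡 n) f y)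

/-- near `x` the fibres of `f` are countable -/
def CountableToOneNear (f : X → Y) (x : X) : Prop :=
  ∃ U ∈ 𝓝 x, ∀ y, (U ∩ f ⁻¹' {y}).Countable

/-- the Jacobian determinant of `f` does not change sign near `x`: it is nonnegative near `x` in
some smooth coordinates around `x` (the parametrization `A`) and around `f x` (the chart `B`) -/
def JacobianNonneg (f : X → Y) (x : X) : Prop :=
  ∃ (A : R n → X) (B : Y → R n), A 0 = x ∧ LocDiff n A 0 ∧ LocDiff n B (f x) ∧
    ∀ᶠ z in 𝓝 (0 : R n), 0 ≤ (fderiv ℝ (fun p => B (f (A p))) z).det

/-- near `x` the map is smooth of rank at least `n - 1`, countable-to-one, and its Jacobian does not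
change sign -/
def NoFold (f : X → Y) (x : X) : Prop :=
  SmoothOfRank n (n - 1) f x ∧ CountableToOneNear f x ∧ JacobianNonneg n f x

end defs

/-- `f` is surjective on fundamental groups, at every base point -/
def PiOneSurjective {X Y : Type} [TopologicalSpace X] [TopologicalSpace Y] (f : C(X, Y)) : Prop :=
  ∀ (x : X) (γ : Path (f x) (f x)), ∃ δ : Path x x, (δ.map f.continuous).Homotopic γ

/-- Continuous maps of a closed connected manifold, surjective on fundamental groups, which at every
point are local diffeomorphisms, cone monotone, or smooth and countable-to-one of rank at least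
`n - 1` without sign change of the Jacobian, are homeomorphisms, and can be replaced by
diffeomorphisms near the graph. -/
theorem result (n : ℕ) (hn : 2 ≤ n) (X Y : Type) [TopologicalSpace X] [T2Space X] [CompactSpace X]
    [ConnectedSpace X] [ChartedSpace (R n) X] [IsManifold (𝓡 n) ∞ X]
    [TopologicalSpace Y] [T2Space Y] [ConnectedSpace Y] [ChartedSpace (R n) Y]
    [IsManifold (𝓡 n) ∞ Y] (f : C(X, Y)) (hp : PiOneSurjective f)
    (hf : ∀ x, LocDiff n f x ∨ NoFold n f x ∨ ConeMonotone n f x) :
    IsHomeomorph f ∧
      ∀ (V : Set X), IsOpen V → (∀ x, x ∉ V → LocDiff n f x) →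
        ∀ (O : Set (X × Y)), IsOpen O → (∀ x, (x, f x) ∈ O) →
          ∃ Φ : Diffeomorph (𝓡 n) (𝓡 n) X Y ∞, (∀ x, (x, Φ x) ∈ O) ∧ ∀ x, x ∉ V → Φ x = f x := by
  obtain ⟨m, hm, rfl⟩ : ∃ m : ℕ, 1 ≤ m ∧ n = m + 1 := ⟨n - 1, by omega, by omega⟩
  have h1 : ∀ x, Pool.Agent.Y522.LD (m + 1) f x ∨ Pool.Agent.Y66.CM.CMon (m + 1) f x ∨
      Pool.Agent.Q131.FT.NF m f x := by
    intro x
    rcases hf x with h | ⟨h1, h2, h3⟩ | ⟨A, B, hA0, hA, hB, hc⟩
    · exact Or.inl h
    · exact Or.inr (Or.inr ⟨h1.mono fun y hy => ⟨hy.1, hy.2.le⟩, h2, h3⟩)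
    · exact Or.inr (Or.inl ⟨B, hB, A, hA0, hA, hc⟩)
  have hb := Pool.Agent.Q131.FT.bij_pi f h1 hp
  refine ⟨isHomeomorph_iff_continuous_bijective.2 ⟨f.continuous, hb⟩, fun V hV hVf O hO hfO => ?_⟩
  exact Pool.Agent.Q131.FT.diffeo_bij hm f f.continuous h1 hb V hV hVf O hO hfO

end Pool.Agent.Results.MP_6db3ee_gt.PiOneSurjectiveMaps
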